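import Mathlib
import Pool.Agent.Q271.ZG.Stm2
import Pool.Agent.Q271.ZG.Basic
import Pool.Agent.W437.HD.Fixed

/-!
# Project ZG (helper271), job INV: the invariant tensors of the Lie algebra are spanned by the
invariant rational tensors
-/

set_option autoImplicit false
set_option linter.unusedSectionVars false

namespace Pool.Agent.Q241.ZG

open Matrix Pool.Agent.Q60.ED Pool.Agent.Q271.ZG

variable {ι : Type} [Fintype ι] [DecidableEq ι]

/-- the operator which is `w - d` on the part `E w` -/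
noncomputable def H0 (V : PHS ι) : Matrix ι ι ℂ :=
  ∑ w ∈ Finset.range (2 * V.d + 1), ((w : ℂ) - V.d) • V.E w

theorem hH_eq (V : PHS ι) (σ : ℂ ≃+* ℂ) : hH V σ = (H0 V).map σ := rfl

theorem c_exp_apply (V : PHS ι) (h : ℂ) (i j : ι) :
    V.c (Complex.exp h) i j =
      ∑ w ∈ Finset.range (2 * V.d + 1), Complex.exp (((w : ℂ) - V.d) * h) * V.E w i j := by
  rw [PHS.c, coch, Matrix.smul_apply, Matrix.sum_apply, smul_eq_mul, Finset.mul_sum]
  refine Finset.sum_congr rfl fun w _ => ?_
  rw [Matrix.smul_apply, smul_eq_mul, ← mul_assoc]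
  congr 1
  rw [← Complex.exp_nat_mul, ← Complex.exp_nat_mul, ← Complex.exp_neg, ← Complex.exp_add]
  congr 1
  ring

theorem hasDerivAt_c (V : PHS ι) (i j : ι) :
    HasDerivAt (fun h : ℂ => V.c (Complex.exp h) i j) (H0 V i j) 0 := by
  have h1 : (fun h : ℂ => V.c (Complex.exp h) i j) = fun h =>
      ∑ w ∈ Finset.range (2 * V.d + 1), Complex.exp (((w : ℂ) - V.d) * h) * V.E w i j :=
    funext fun h => c_exp_apply V h i j
  have h2 : H0 V i j = ∑ w ∈ Finset.range (2 * V.d + 1), ((w : ℂ) - V.d) * V.E w i j := by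
    rw [H0, Matrix.sum_apply]
    exact Finset.sum_congr rfl fun w _ => by rw [Matrix.smul_apply, smul_eq_mul]
  rw [h1, h2]
  refine HasDerivAt.fun_sum fun w _ => ?_
  have h3 : HasDerivAt (fun h : ℂ => Complex.exp (((w : ℂ) - V.d) * h)) ((w : ℂ) - V.d) 0 := by
    have h4 : HasDerivAt (fun h : ℂ => ((w : ℂ) - V.d) * h) ((w : ℂ) - V.d) 0 := by
      simpa using (hasDerivAt_id (0 : ℂ)).const_mul ((w : ℂ) - V.d)
    have h5 := h4.cexp
    simpa using h5
  exact h3.mul_const _

theorem hasDerivAt_TP (V : PHS ι) (n : ℕ) (I J : Fin n → ι) :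
    HasDerivAt (fun h : ℂ => TP (V.c (Complex.exp h)) n I J) (dTP (H0 V) n I J) 0 := by
  classical
  have h1 : HasDerivAt (fun h : ℂ => ∏ k : Fin n, V.c (Complex.exp h) (I k) (J k))
      (∑ k, (∏ l ∈ Finset.univ.erase k, V.c (Complex.exp 0) (I l) (J l)) •
        H0 V (I k) (J k)) 0 :=
    HasDerivAt.fun_finset_prod fun k _ => hasDerivAt_c V (I k) (J k)
  have h2 : (∑ k, (∏ l ∈ Finset.univ.erase k, V.c (Complex.exp 0) (I l) (J l)) •
        H0 V (I k) (J k)) = dTP (H0 V) n I J := by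
    rw [dTP_apply]
    refine Finset.sum_congr rfl fun k _ => ?_
    rw [Complex.exp_zero, PHS.c_one, smul_eq_mul]
    by_cases h : ∀ l, l ≠ k → I l = J l
    · rw [if_pos h, Finset.prod_eq_one, one_mul]
      intro l hl
      rw [h l (Finset.ne_of_mem_erase hl), Matrix.one_apply_eq]
    · rw [if_neg h]
      push Not at h
      obtain ⟨l, hl, hlJ⟩ := h
      have h3 : ∏ l ∈ Finset.univ.erase k, (1 : Matrix ι ι ℂ) (I l) (J l) = 0 :=
        Finset.prod_eq_zero (i := l) (Finset.mem_erase.2 ⟨hl, Finset.mem_univ l⟩)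
          (Matrix.one_apply_ne hlJ)
      rw [h3, zero_mul]
  rw [← h2]
  exact h1

theorem hasDerivAt_mulVec (V : PHS ι) (n : ℕ) (t : (Fin n → ι) → ℂ) (I : Fin n → ι) :
    HasDerivAt (fun h : ℂ => (TP (V.c (Complex.exp h)) n *ᵥ t) I) ((dTP (H0 V) n *ᵥ t) I) 0 := by
  have h1 : (fun h : ℂ => (TP (V.c (Complex.exp h)) n *ᵥ t) I) =
      fun h => ∑ J, TP (V.c (Complex.exp h)) n I J * t J := rfl
  have h2 : (dTP (H0 V) n *ᵥ t) I = ∑ J, dTP (H0 V) n I J * t J := rfl
  rw [h1, h2]
  exact HasDerivAt.fun_sum fun J _ => (hasDerivAt_TP V n I J).mul_const _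

/-- a fixed tensor is killed by the derivative -/
theorem killed (V : PHS ι) (n : ℕ) (t : (Fin n → ι) → ℂ)
    (h : ∀ z : ℂ, z ≠ 0 → TP (V.c z) n *ᵥ t = t) : dTP (H0 V) n *ᵥ t = 0 := by
  funext I
  have h1 := hasDerivAt_mulVec V n t I
  have h2 : (fun h : ℂ => (TP (V.c (Complex.exp h)) n *ᵥ t) I) = fun _ => t I := by
    funext s
    rw [h _ (Complex.exp_ne_zero s)]
  rw [h2] at h1
  exact h1.unique (hasDerivAt_const 0 (t I))

/-- a tensor killed by the derivative is fixed -/
theorem fixed (V : PHS ι) (n : ℕ) (t : (Fin n → ι) → ℂ)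
    (h : dTP (H0 V) n *ᵥ t = 0) (z : ℂ) (hz : z ≠ 0) : TP (V.c z) n *ᵥ t = t := by
  funext I
  have key : ∀ s : ℂ, HasDerivAt (fun u : ℂ => (TP (V.c (Complex.exp u)) n *ᵥ t) I) 0 s := by
    intro s
    have h1 : HasDerivAt (fun u : ℂ => ∑ J, TP (V.c (Complex.exp s)) n I J *
        (TP (V.c (Complex.exp u)) n *ᵥ t) J)
        (∑ J, TP (V.c (Complex.exp s)) n I J * (dTP (H0 V) n *ᵥ t) J) 0 :=
      HasDerivAt.fun_sum fun J _ => (hasDerivAt_mulVec V n t J).const_mul _
    rw [h] at h1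
    simp only [Pi.zero_apply, mul_zero, Finset.sum_const_zero] at h1
    have h2 : (fun u : ℂ => ∑ J, TP (V.c (Complex.exp s)) n I J *
        (TP (V.c (Complex.exp u)) n *ᵥ t) J) =
        fun u => (TP (V.c (Complex.exp (s + u))) n *ᵥ t) I := by
      funext u
      have h3 : V.c (Complex.exp (s + u)) = V.c (Complex.exp s) * V.c (Complex.exp u) := by
        rw [Complex.exp_add]
        exact V.mul _ _ (Complex.exp_ne_zero _) (Complex.exp_ne_zero _)
      rw [h3, TP_mul, ← Matrix.mulVec_mulVec]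
      rfl
    rw [h2] at h1
    have h4 : HasDerivAt (fun u : ℂ => u - s) 1 s := (hasDerivAt_id s).sub_const s
    have h5 : HasDerivAt (fun u : ℂ => (TP (V.c (Complex.exp (s + u))) n *ᵥ t) I) 0 (s - s) := by
      rw [sub_self]; exact h1
    have h6 := HasDerivAt.comp (h := fun u : ℂ => u - s) s h5 h4
    rw [zero_mul] at h6
    refine h6.congr_of_eventuallyEq (Filter.Eventually.of_forall fun u => ?_)
    simp only [Function.comp_apply, add_sub_cancel]
  have h7 := is_const_of_deriv_eq_zero (fun s => (key s).differentiableAt)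
    (fun s => (key s).deriv) (Complex.log z) 0
  simp only [Complex.exp_log hz, Complex.exp_zero, PHS.c_one, TP_one, Matrix.one_mulVec] at h7
  exact h7

theorem dTP_map (σ : ℂ ≃+* ℂ) (x : Matrix ι ι ℂ) (n : ℕ) (I J : Fin n → ι) :
    dTP (x.map σ) n I J = σ (dTP x n I J) := by
  rw [dTP_apply, dTP_apply, map_sum]
  refine Finset.sum_congr rfl fun k _ => ?_
  split_ifs
  · rfl
  · rw [map_zero]

theorem dTP_map_mulVec (σ : ℂ ≃+* ℂ) (x : Matrix ι ι ℂ) (n : ℕ) (t : (Fin n → ι) → ℂ) :
    dTP (x.map σ) n *ᵥ (fun I => σ (t I)) = fun I => σ ((dTP x n *ᵥ t) I) := by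
  funext I
  change ∑ J, dTP (x.map σ) n I J * σ (t J) = σ (∑ J, dTP x n I J * t J)
  rw [map_sum]
  exact Finset.sum_congr rfl fun J _ => by rw [dTP_map, map_mul]

theorem main_INV : Pool.Agent.Q271.ZG.S_INV := by
  intro ι _ _ V n
  constructor
  · intro t ht x hx
    have h0 : dTP (H0 V) n *ᵥ cx t = 0 := killed V n (cx t) fun z hz => by
      rw [← tpow_eq]; exact ht z hz
    let 𝔫 : Submodule ℂ (Matrix ι ι ℂ) :=
      { carrier := {x | dTP x n *ᵥ cx t = 0}
        add_mem' := by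
          intro a b ha hb
          change dTP (a + b) n *ᵥ cx t = 0
          rw [dTP_add, Matrix.add_mulVec, show dTP a n *ᵥ cx t = 0 from ha,
            show dTP b n *ᵥ cx t = 0 from hb, add_zero]
        zero_mem' := by
          change dTP 0 n *ᵥ cx t = 0
          rw [dTP_zero, Matrix.zero_mulVec]
        smul_mem' := by
          intro c a ha
          change dTP (c • a) n *ᵥ cx t = 0
          rw [dTP_smul, Matrix.smul_mulVec, show dTP a n *ᵥ cx t = 0 from ha, smul_zero] }
    have h1 : hLie V ≤ 𝔫 := by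
      refine hLie_le V (fun σ => ?_) fun a ha b hb => ?_
      · change dTP (hH V σ) n *ᵥ cx t = 0
        have h2 : cx t = fun I => σ (cx t I) := by
          funext I
          simp [cx]
        rw [hH_eq, h2, dTP_map_mulVec, h0]
        funext I
        exact map_zero σ
      · change dTP (a * b - b * a) n *ᵥ cx t = 0
        rw [dTP_comm, Matrix.sub_mulVec, ← Matrix.mulVec_mulVec, ← Matrix.mulVec_mulVec,
          show dTP a n *ᵥ cx t = 0 from ha, show dTP b n *ᵥ cx t = 0 from hb,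
          Matrix.mulVec_zero, Matrix.mulVec_zero, sub_zero]
    exact h1 hx
  · intro t ht
    let C : Submodule ℂ ((Fin n → ι) → ℂ) :=
      { carrier := {t | ∀ σ, dTP (hH V σ) n *ᵥ t = 0}
        add_mem' := by
          intro a b ha hb σ
          rw [Matrix.mulVec_add, ha σ, hb σ, add_zero]
        zero_mem' := by
          intro σ
          rw [Matrix.mulVec_zero]
        smul_mem' := by
          intro c a ha σ
          rw [Matrix.mulVec_smul, ha σ, smul_zero] }
    have hC : ∀ (τ : ℂ ≃+* ℂ), ∀ v ∈ C, (fun I => τ (v I)) ∈ C := by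
      intro τ v hv σ
      have h1 : hH V σ = (hH V (σ.trans τ.symm)).map τ := by
        ext i j
        rw [hH_eq, hH_eq, Matrix.map_apply, Matrix.map_apply, Matrix.map_apply]
        simp
      rw [h1, dTP_map_mulVec, hv (σ.trans τ.symm)]
      funext I
      exact map_zero τ
    have h2 := Pool.Agent.W437.HD.span_rational C hC
    have h3 : t ∈ C := fun σ => ht _ (hH_mem V σ)
    rw [h2] at h3
    refine Submodule.span_mono ?_ h3
    rintro w ⟨hw, u, rfl⟩
    refine ⟨u, ?_, rfl⟩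
    intro z hz
    rw [tpow_eq]
    have h4 : hH V (RingEquiv.refl ℂ) = H0 V := by
      rw [hH_eq]; ext i j; rfl
    have h5 := hw (RingEquiv.refl ℂ)
    rw [h4] at h5
    exact fixed V n _ h5 z hz

end Pool.Agent.Q241.ZG
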